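import Mathlib

/-!
A non-regular rhombic dodecahedron in space of unit volume with the least circumradius.
-/

set_option autoImplicit false
open MeasureTheory Set Metric
open scoped Pointwise

namespace Pool.Agent.Results.MP_de3f1f_gt.NonRegularMinimiser

/-- the zonotope `∑ [o, p i]` -/
def zonotope {d n : ℕ} (p : Fin n → EuclideanSpace ℝ (Fin d)) : Set (EuclideanSpace ℝ (Fin d)) :=
  {x | ∃ t : Fin n → ℝ, (∀ i, 0 ≤ t i ∧ t i ≤ 1) ∧ x = ∑ i, t i • p i}

/-- a `d`-dimensional zonotope in `ℝ^d` generated by `d + 1` segments -/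
def IsRhombicDodecahedron {d : ℕ} (Z : Set (EuclideanSpace ℝ (Fin d))) : Prop :=
  (∃ p : Fin (d + 1) → EuclideanSpace ℝ (Fin d), Z = zonotope p) ∧ (interior Z).Nonempty

/-- a translate of `∑ [o, p i]` with `p i` the vertices of a regular simplex centred at `o` -/
def IsRegular {d : ℕ} (Z : Set (EuclideanSpace ℝ (Fin d))) : Prop :=
  ∃ (v : EuclideanSpace ℝ (Fin d)) (p : Fin (d + 1) → EuclideanSpace ℝ (Fin d)),
    ∑ i, p i = 0 ∧ (∃ l : ℝ, 0 < l ∧ ∀ i j, i ≠ j → dist (p i) (p j) = l) ∧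
      Z = (fun x => v + x) '' zonotope p

/-- the circumradius -/
noncomputable def circumradius {d : ℕ} (Z : Set (EuclideanSpace ℝ (Fin d))) : ℝ :=
  sInf {r : ℝ | 0 ≤ r ∧ ∃ c, Z ⊆ closedBall c r}

abbrev E3 := EuclideanSpace ℝ (Fin 3)

/-- determinant of three vectors -/
noncomputable def dt (a b c : E3) : ℝ :=
  a 0 * (b 1 * c 2 - b 2 * c 1) - a 1 * (b 0 * c 2 - b 2 * c 0) + a 2 * (b 0 * c 1 - b 1 * c 0)

/-- the linear map with given images of the basis -/
noncomputable def lm (a b c : E3) : E3 →ₗ[ℝ] E3 where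
  toFun x := x 0 • a + x 1 • b + x 2 • c
  map_add' x y := by
    simp only [PiLp.add_apply, add_smul]; abel
  map_smul' r x := by
    simp only [PiLp.smul_apply, smul_eq_mul, smul_add, smul_smul, RingHom.id_apply]

theorem lm_eq (a b c x : E3) : lm a b c x = x 0 • a + x 1 • b + x 2 • c := rfl

theorem lm_apply (a b c x : E3) (i : Fin 3) :
    (lm a b c x) i = x 0 * a i + x 1 * b i + x 2 * c i := rfl

theorem lm_det (a b c : E3) : LinearMap.det (lm a b c) = dt a b c := by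
  rw [← LinearMap.det_toMatrix (EuclideanSpace.basisFun (Fin 3) ℝ).toBasis]
  rw [Matrix.det_fin_three]
  simp only [LinearMap.toMatrix_apply, OrthonormalBasis.coe_toBasis_repr_apply,
    OrthonormalBasis.coe_toBasis, EuclideanSpace.basisFun_apply, EuclideanSpace.basisFun_repr,
    lm_apply]
  simp [dt]
  ring

/-- closed unit cube -/
def cube : Set E3 := {x | ∀ i, 0 ≤ x i ∧ x i ≤ 1}

/-- open unit cube -/
def ocube : Set E3 := {x | ∀ i, 0 < x i ∧ x i < 1}

theorem vol_cube : volume cube = 1 := by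
  have e : cube = (@WithLp.ofLp 2 (Fin 3 → ℝ)) ⁻¹' (Set.pi univ fun _ => Icc (0 : ℝ) 1) := by
    ext x
    simp only [cube, Set.mem_ofPred_eq, mem_preimage, Set.mem_pi, mem_univ, true_implies, mem_Icc]
  rw [e, (PiLp.volume_preserving_ofLp (Fin 3)).measure_preimage
    (MeasurableSet.univ_pi fun _ => measurableSet_Icc).nullMeasurableSet, volume_pi_pi]
  simp

theorem vol_ocube : volume ocube = 1 := by
  have e : ocube = (@WithLp.ofLp 2 (Fin 3 → ℝ)) ⁻¹' (Set.pi univ fun _ => Ioo (0 : ℝ) 1) := by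
    ext x
    simp only [ocube, Set.mem_ofPred_eq, mem_preimage, Set.mem_pi, mem_univ, true_implies, mem_Ioo]
  rw [e, (PiLp.volume_preserving_ofLp (Fin 3)).measure_preimage
    (MeasurableSet.univ_pi fun _ => measurableSet_Ioo).nullMeasurableSet, volume_pi_pi]
  simp

/-- closed parallelepiped -/
def par (v a b c : E3) : Set E3 :=
  {z | ∃ x y w : ℝ, (0 ≤ x ∧ x ≤ 1) ∧ (0 ≤ y ∧ y ≤ 1) ∧ (0 ≤ w ∧ w ≤ 1) ∧
    z = v + (x • a + y • b + w • c)}

/-- open parallelepiped -/
def opar (a b c : E3) : Set E3 :=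
  {z | ∃ x y w : ℝ, (0 < x ∧ x < 1) ∧ (0 < y ∧ y < 1) ∧ (0 < w ∧ w < 1) ∧
    z = x • a + y • b + w • c}

theorem vol_par (v a b c : E3) : volume (par v a b c) = ENNReal.ofReal |dt a b c| := by
  have e : par v a b c = (fun x => v + x) '' (lm a b c '' cube) := by
    ext z
    constructor
    · rintro ⟨x, y, w, hx, hy, hw, rfl⟩
      refine ⟨_, ⟨!₂[x, y, w], ?_, rfl⟩, ?_⟩
      · intro i
        fin_cases i
        · simpa using hx
        · simpa using hy
        · simpa using hw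
      · simp [lm_eq]
    · rintro ⟨_, ⟨x, hx, rfl⟩, rfl⟩
      exact ⟨x 0, x 1, x 2, hx 0, hx 1, hx 2, rfl⟩
  rw [e]
  have h1 : (fun x => v + x) '' (lm a b c '' cube) = v +ᵥ (lm a b c '' cube) := rfl
  rw [h1, measure_vadd, MeasureTheory.Measure.addHaar_image_linearMap, lm_det, vol_cube, mul_one]

theorem vol_opar (a b c : E3) : volume (opar a b c) = ENNReal.ofReal |dt a b c| := by
  have e : opar a b c = lm a b c '' ocube := by
    ext z
    constructor
    · rintro ⟨x, y, w, hx, hy, hw, rfl⟩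
      refine ⟨!₂[x, y, w], ?_, ?_⟩
      · intro i
        fin_cases i
        · simpa using hx
        · simpa using hy
        · simpa using hw
      · simp [lm_eq]
    · rintro ⟨x, hx, rfl⟩
      exact ⟨x 0, x 1, x 2, hx 0, hx 1, hx 2, rfl⟩
  rw [e, MeasureTheory.Measure.addHaar_image_linearMap, lm_det, vol_ocube, mul_one]

/-- signed minors -/
noncomputable def mn (q : Fin 4 → E3) : Fin 4 → ℝ :=
  ![dt (q 1) (q 2) (q 3), -dt (q 0) (q 2) (q 3), dt (q 0) (q 1) (q 3), -dt (q 0) (q 1) (q 2)]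

theorem mn_rel (q : Fin 4 → E3) : ∑ i, mn q i • q i = 0 := by
  ext a
  rw [Fin.sum_univ_four]
  simp only [mn, dt, PiLp.add_apply, PiLp.smul_apply, smul_eq_mul, PiLp.zero_apply,
    Matrix.cons_val]
  fin_cases a
  · simp; ring
  · simp; ring
  · simp; ring

/-- moving a parameter point along the relation until a coordinate becomes extreme -/
theorem push {c t : Fin 4 → ℝ} (ht : ∀ i, 0 ≤ t i ∧ t i ≤ 1) (hc : ∃ i, c i ≠ 0) :
    ∃ l : ℝ, (∀ i, 0 ≤ t i - l * c i ∧ t i - l * c i ≤ 1) ∧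
      ∃ i, t i - l * c i = if 0 < c i then 0 else 1 := by
  classical
  set f : Fin 4 → ℝ := fun i => if 0 < c i then t i / c i else (1 - t i) / (-c i) with hf
  have hne : (Finset.univ.filter fun i => c i ≠ 0).Nonempty := by
    obtain ⟨i, hi⟩ := hc
    exact ⟨i, by simp [hi]⟩
  obtain ⟨i, hi, hmin⟩ := Finset.exists_min_image _ f hne
  simp only [Finset.mem_filter, Finset.mem_univ, true_and] at hi hmin
  have hfn : ∀ j, c j ≠ 0 → 0 ≤ f j := by
    intro j hj
    simp only [hf]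
    split_ifs with h
    · exact div_nonneg (ht j).1 h.le
    · have : c j < 0 := lt_of_le_of_ne (not_lt.1 h) hj
      exact div_nonneg (by linarith [(ht j).2]) (by linarith)
  have hfi := hfn i hi
  refine ⟨f i, fun j => ?_, i, ?_⟩
  · by_cases hj : c j = 0
    · rw [hj, mul_zero, sub_zero]; exact ht j
    · have h1 := hmin j hj
      by_cases h : 0 < c j
      · have e : f j * c j = t j := by
          simp only [hf, if_pos h]; field_simp
        have h2 : f i * c j ≤ f j * c j := by gcongr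
        have h3 : 0 ≤ f i * c j := mul_nonneg hfi h.le
        exact ⟨by linarith, by linarith [(ht j).2]⟩
      · have hn : c j < 0 := lt_of_le_of_ne (not_lt.1 h) hj
        have e : f j * c j = -(1 - t j) := by
          simp only [hf, if_neg h]
          have : -c j ≠ 0 := by linarith
          field_simp
        have h2 : f j * c j ≤ f i * c j := mul_le_mul_of_nonpos_right h1 hn.le
        have h3 : f i * c j ≤ 0 := mul_nonpos_of_nonneg_of_nonpos hfi hn.le
        exact ⟨by linarith [(ht j).1], by linarith⟩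
  · by_cases h : 0 < c i
    · have e : f i * c i = t i := by
        simp only [hf, if_pos h]; field_simp
      rw [if_pos h, e, sub_self]
    · have hn : c i < 0 := lt_of_le_of_ne (not_lt.1 h) hi
      have e : f i * c i = -(1 - t i) := by
        simp only [hf, if_neg h]
        have : -c i ≠ 0 := by linarith
        field_simp
      rw [if_neg h, e]; ring

theorem zono_cover (q : Fin 4 → E3) (hc : ∃ i, mn q i ≠ 0) : ∃ b : Fin 4 → ℝ,
    zonotope q ⊆ par (b 0 • q 0) (q 1) (q 2) (q 3) ∪ par (b 1 • q 1) (q 0) (q 2) (q 3) ∪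
      par (b 2 • q 2) (q 0) (q 1) (q 3) ∪ par (b 3 • q 3) (q 0) (q 1) (q 2) := by
  refine ⟨fun i => if 0 < mn q i then 0 else 1, ?_⟩
  rintro z ⟨t, ht, rfl⟩
  obtain ⟨l, hl, i, hi⟩ := push ht hc
  set s : Fin 4 → ℝ := fun j => t j - l * mn q j with hs
  have e : ∑ j, t j • q j = ∑ j, s j • q j := by
    have h := mn_rel q
    have : ∑ j, s j • q j = ∑ j, t j • q j - l • ∑ j, mn q j • q j := by
      rw [Finset.smul_sum, ← Finset.sum_sub_distrib]
      refine Finset.sum_congr rfl fun j _ => ?_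
      rw [hs, sub_smul, smul_smul]
    rw [this, h, smul_zero, sub_zero]
  rw [e, Fin.sum_univ_four]
  have hs' : ∀ j, 0 ≤ s j ∧ s j ≤ 1 := hl
  fin_cases i
  · left; left; left
    refine ⟨s 1, s 2, s 3, hs' 1, hs' 2, hs' 3, ?_⟩
    have : s 0 = if 0 < mn q 0 then 0 else 1 := hi
    beta_reduce
    rw [← this]; abel
  · left; left; right
    refine ⟨s 0, s 2, s 3, hs' 0, hs' 2, hs' 3, ?_⟩
    have : s 1 = if 0 < mn q 1 then 0 else 1 := hi
    beta_reduce
    rw [← this]; abel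
  · left; right
    refine ⟨s 0, s 1, s 3, hs' 0, hs' 1, hs' 3, ?_⟩
    have : s 2 = if 0 < mn q 2 then 0 else 1 := hi
    beta_reduce
    rw [← this]; abel
  · right
    refine ⟨s 0, s 1, s 2, hs' 0, hs' 1, hs' 2, ?_⟩
    have : s 3 = if 0 < mn q 3 then 0 else 1 := hi
    beta_reduce
    rw [← this]; abel

theorem vol_le_of_ne (q : Fin 4 → E3) (hc : ∃ i, mn q i ≠ 0) :
    volume (zonotope q) ≤ ENNReal.ofReal (|mn q 0| + |mn q 1| + |mn q 2| + |mn q 3|) := by
  obtain ⟨b, hb⟩ := zono_cover q hc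
  refine (measure_mono hb).trans ?_
  refine (measure_union_le _ _).trans ?_
  rw [ENNReal.ofReal_add (by positivity) (abs_nonneg _)]
  refine add_le_add ?_ (le_of_eq ?_)
  · refine (measure_union_le _ _).trans ?_
    rw [ENNReal.ofReal_add (by positivity) (abs_nonneg _)]
    refine add_le_add ?_ (le_of_eq ?_)
    · refine (measure_union_le _ _).trans ?_
      rw [ENNReal.ofReal_add (by positivity) (abs_nonneg _)]
      refine add_le_add (le_of_eq ?_) (le_of_eq ?_)
      · rw [vol_par]; rfl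
      · rw [vol_par]; simp [mn]
    · rw [vol_par]; simp [mn]
  · rw [vol_par]; simp [mn]

theorem inner3 (a b : E3) : inner ℝ a b = a 0 * b 0 + a 1 * b 1 + a 2 * b 2 := by
  simp [PiLp.inner_apply, Fin.sum_univ_three]; ring

theorem normsq3 (a : E3) : ‖a‖ ^ 2 = a 0 ^ 2 + a 1 ^ 2 + a 2 ^ 2 := by
  rw [← real_inner_self_eq_norm_sq, inner3]; ring

/-- Hadamard's inequality -/
theorem dt_le {a b c : E3} {R : ℝ} (hR : 0 ≤ R) (ha : ‖a‖ ≤ R) (hb : ‖b‖ ≤ R) (hc : ‖c‖ ≤ R) :
    |dt a b c| ≤ R ^ 3 := by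
  have ha2 : a 0 ^ 2 + a 1 ^ 2 + a 2 ^ 2 ≤ R ^ 2 := by
    rw [← normsq3]; have := norm_nonneg a; gcongr
  have hb2 : b 0 ^ 2 + b 1 ^ 2 + b 2 ^ 2 ≤ R ^ 2 := by
    rw [← normsq3]; have := norm_nonneg b; gcongr
  have hc2 : c 0 ^ 2 + c 1 ^ 2 + c 2 ^ 2 ≤ R ^ 2 := by
    rw [← normsq3]; have := norm_nonneg c; gcongr
  set n0 := b 1 * c 2 - b 2 * c 1 with hn0
  set n1 := -(b 0 * c 2 - b 2 * c 0) with hn1
  set n2 := b 0 * c 1 - b 1 * c 0 with hn2
  have h1 : n0 ^ 2 + n1 ^ 2 + n2 ^ 2 ≤ (b 0 ^ 2 + b 1 ^ 2 + b 2 ^ 2) *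
      (c 0 ^ 2 + c 1 ^ 2 + c 2 ^ 2) := by
    have : (b 0 ^ 2 + b 1 ^ 2 + b 2 ^ 2) * (c 0 ^ 2 + c 1 ^ 2 + c 2 ^ 2) -
      (n0 ^ 2 + n1 ^ 2 + n2 ^ 2) = (b 0 * c 0 + b 1 * c 1 + b 2 * c 2) ^ 2 := by
      rw [hn0, hn1, hn2]; ring
    have h2 := sq_nonneg (b 0 * c 0 + b 1 * c 1 + b 2 * c 2)
    linarith
  have h2 : (a 0 * n0 + a 1 * n1 + a 2 * n2) ^ 2 ≤ (a 0 ^ 2 + a 1 ^ 2 + a 2 ^ 2) *
      (n0 ^ 2 + n1 ^ 2 + n2 ^ 2) := by
    have : (a 0 ^ 2 + a 1 ^ 2 + a 2 ^ 2) * (n0 ^ 2 + n1 ^ 2 + n2 ^ 2) -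
      (a 0 * n0 + a 1 * n1 + a 2 * n2) ^ 2 =
      (a 0 * n1 - a 1 * n0) ^ 2 + (a 0 * n2 - a 2 * n0) ^ 2 + (a 1 * n2 - a 2 * n1) ^ 2 := by ring
    have h3 := sq_nonneg (a 0 * n1 - a 1 * n0)
    have h4 := sq_nonneg (a 0 * n2 - a 2 * n0)
    have h5 := sq_nonneg (a 1 * n2 - a 2 * n1)
    linarith
  have h3 : dt a b c = a 0 * n0 + a 1 * n1 + a 2 * n2 := by
    rw [hn0, hn1, hn2]; unfold dt; ring
  have h4 : (b 0 ^ 2 + b 1 ^ 2 + b 2 ^ 2) * (c 0 ^ 2 + c 1 ^ 2 + c 2 ^ 2) ≤ R ^ 2 * R ^ 2 := by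
    apply mul_le_mul hb2 hc2 (by positivity) (by positivity)
  have h5 : (a 0 ^ 2 + a 1 ^ 2 + a 2 ^ 2) * (n0 ^ 2 + n1 ^ 2 + n2 ^ 2) ≤ R ^ 2 * (R ^ 2 * R ^ 2) :=
    mul_le_mul ha2 (h1.trans h4) (by positivity) (by positivity)
  have h6 : (dt a b c) ^ 2 ≤ (R ^ 3) ^ 2 := by
    rw [h3]
    calc (a 0 * n0 + a 1 * n1 + a 2 * n2) ^ 2 ≤ R ^ 2 * (R ^ 2 * R ^ 2) := h2.trans h5
      _ = (R ^ 3) ^ 2 := by ring
  exact abs_le_of_sq_le_sq h6 (by positivity)

/-- every signed sum of generators is at most the diameter of an enclosing ball -/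
theorem sign_sum_le {q : Fin 4 → E3} {c : E3} {r : ℝ} (h : zonotope q ⊆ closedBall c r)
    (e : Fin 4 → ℝ) (he : ∀ i, e i = 1 ∨ e i = -1) : ‖∑ i, e i • q i‖ ≤ 2 * r := by
  have h1 : ∑ i, ((1 + e i) / 2) • q i ∈ zonotope q := by
    refine ⟨_, fun i => ?_, rfl⟩
    rcases he i with h | h <;> rw [h] <;> norm_num
  have h2 : ∑ i, ((1 - e i) / 2) • q i ∈ zonotope q := by
    refine ⟨_, fun i => ?_, rfl⟩
    rcases he i with h | h <;> rw [h] <;> norm_num
  have h3 := mem_closedBall.1 (h h1)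
  have h4 := mem_closedBall.1 (h h2)
  have h5 : ∑ i, e i • q i = ∑ i, ((1 + e i) / 2) • q i - ∑ i, ((1 - e i) / 2) • q i := by
    rw [← Finset.sum_sub_distrib]
    refine Finset.sum_congr rfl fun i _ => ?_
    rw [← sub_smul]; congr 1; ring
  rw [h5, ← dist_eq_norm]
  have := dist_triangle_right (∑ i, ((1 + e i) / 2) • q i) (∑ i, ((1 - e i) / 2) • q i) c
  linarith

theorem mn_le {q : Fin 4 → E3} {c : E3} {r : ℝ} (hr : 0 ≤ r) (h : zonotope q ⊆ closedBall c r) :
    |mn q 0| + |mn q 1| + |mn q 2| + |mn q 3| ≤ 2 * r ^ 3 := by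
  -- signs
  have hsg : ∀ x : ℝ, ∃ s : ℝ, (s = 1 ∨ s = -1) ∧ s * x = |x| := by
    intro x
    rcases le_total 0 x with hx | hx
    · exact ⟨1, Or.inl rfl, by rw [abs_of_nonneg hx, one_mul]⟩
    · exact ⟨-1, Or.inr rfl, by rw [abs_of_nonpos hx]; ring⟩
  obtain ⟨s0, h0, e0⟩ := hsg (mn q 0)
  obtain ⟨s1, h1, e1⟩ := hsg (mn q 1)
  obtain ⟨s2, h2, e2⟩ := hsg (mn q 2)
  obtain ⟨s3, h3, e3⟩ := hsg (mn q 3)
  have sq0 : s0 ^ 2 = 1 := by rcases h0 with h | h <;> rw [h] <;> norm_num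
  have sq1 : s1 ^ 2 = 1 := by rcases h1 with h | h <;> rw [h] <;> norm_num
  have sq2 : s2 ^ 2 = 1 := by rcases h2 with h | h <;> rw [h] <;> norm_num
  have sq3 : s3 ^ 2 = 1 := by rcases h3 with h | h <;> rw [h] <;> norm_num
  have n0 : -s0 = 1 ∨ -s0 = -1 := by rcases h0 with h | h <;> rw [h] <;> norm_num
  have n1 : -s1 = 1 ∨ -s1 = -1 := by rcases h1 with h | h <;> rw [h] <;> norm_num
  have n2 : -s2 = 1 ∨ -s2 = -1 := by rcases h2 with h | h <;> rw [h] <;> norm_num
  have n3 : -s3 = 1 ∨ -s3 = -1 := by rcases h3 with h | h <;> rw [h] <;> norm_num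
  have b1 := sign_sum_le h ![s0, s1, -s2, -s3] (by
    intro i
    fin_cases i
    · exact h0
    · exact h1
    · exact n2
    · exact n3)
  have b2 := sign_sum_le h ![s0, -s1, s2, -s3] (by
    intro i
    fin_cases i
    · exact h0
    · exact n1
    · exact h2
    · exact n3)
  have b3 := sign_sum_le h ![s0, -s1, -s2, s3] (by
    intro i
    fin_cases i
    · exact h0
    · exact n1
    · exact n2
    · exact h3)
  have key := dt_le (R := 2 * r) (by linarith) b1 b2 b3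
  have hdt : dt (∑ i, (![s0, s1, -s2, -s3] : Fin 4 → ℝ) i • q i)
      (∑ i, (![s0, -s1, s2, -s3] : Fin 4 → ℝ) i • q i)
      (∑ i, (![s0, -s1, -s2, s3] : Fin 4 → ℝ) i • q i) =
      -4 * (s1 * s2 * s3 * mn q 0 + s0 * s2 * s3 * mn q 1 + s0 * s1 * s3 * mn q 2 +
        s0 * s1 * s2 * mn q 3) := by
    simp only [dt, mn, Fin.sum_univ_four, PiLp.add_apply, PiLp.smul_apply, smul_eq_mul,
      Matrix.cons_val]
    ring
  have hfac : s1 * s2 * s3 * mn q 0 + s0 * s2 * s3 * mn q 1 + s0 * s1 * s3 * mn q 2 +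
        s0 * s1 * s2 * mn q 3 =
      (s0 * s1 * s2 * s3) * (|mn q 0| + |mn q 1| + |mn q 2| + |mn q 3|) := by
    rw [← e0, ← e1, ← e2, ← e3]
    linear_combination (-(s1 * s2 * s3 * mn q 0)) * sq0 - (s0 * s2 * s3 * mn q 1) * sq1 -
      (s0 * s1 * s3 * mn q 2) * sq2 - (s0 * s1 * s2 * mn q 3) * sq3
  rw [hdt, hfac, abs_mul, abs_mul] at key
  have hab : |s0 * s1 * s2 * s3| = 1 := by
    rw [← sq_eq_sq₀ (abs_nonneg _) zero_le_one, sq_abs, mul_pow, mul_pow, mul_pow, sq0, sq1, sq2,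
      sq3]
    norm_num
  rw [hab, one_mul, abs_of_nonneg (by positivity : (0 : ℝ) ≤ |mn q 0| + |mn q 1| + |mn q 2| +
    |mn q 3|)] at key
  have h4 : |(-4 : ℝ)| = 4 := by norm_num
  rw [h4] at key
  nlinarith

/-- if all minors vanish, the zonotope is a null set -/
theorem vol_zero {q : Fin 4 → E3} (h : ∀ i, mn q i = 0) : volume (zonotope q) = 0 := by
  -- a common normal vector
  have hn : ∃ n : E3, n ≠ 0 ∧ ∀ i, inner ℝ n (q i) = 0 := by
    have d0 : dt (q 1) (q 2) (q 3) = 0 := h 0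
    have d1 : dt (q 0) (q 2) (q 3) = 0 := neg_eq_zero.1 (h 1)
    have d2 : dt (q 0) (q 1) (q 3) = 0 := h 2
    have d3 : dt (q 0) (q 1) (q 2) = 0 := neg_eq_zero.1 (h 3)
    by_contra hcon
    push Not at hcon
    -- cross products vanish
    set cr : E3 → E3 → E3 := fun a b =>
      !₂[a 1 * b 2 - a 2 * b 1, a 2 * b 0 - a 0 * b 2, a 0 * b 1 - a 1 * b 0] with hcr
    have hdt : ∀ a b c : E3, inner ℝ (cr a b) c = dt a b c := by
      intro a b c
      rw [inner3]
      simp [hcr, dt]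
      ring
    have hall : ∀ i j k, dt (q i) (q j) (q k) = 0 := by
      intro i j k
      have s1 : ∀ a b c : E3, dt a b c = - dt b a c := by intro a b c; unfold dt; ring
      have s2 : ∀ a b c : E3, dt a b c = - dt a c b := by intro a b c; unfold dt; ring
      have s3 : ∀ a b : E3, dt a a b = 0 := by intro a b; unfold dt; ring
      have s4 : ∀ a b : E3, dt a b b = 0 := by intro a b; unfold dt; ring
      have s5 : ∀ a b : E3, dt a b a = 0 := by intro a b; unfold dt; ring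
      fin_cases i <;> fin_cases j <;> fin_cases k <;>
        first
        | exact s3 _ _
        | exact s4 _ _
        | exact s5 _ _
        | exact d0
        | exact d1
        | exact d2
        | exact d3
        | (rw [s1]; simp only [neg_eq_zero]; first | exact d0 | exact d1 | exact d2 | exact d3)
        | (rw [s2]; simp only [neg_eq_zero]; first | exact d0 | exact d1 | exact d2 | exact d3)
        | (rw [s1, s2, neg_neg]; first | exact d0 | exact d1 | exact d2 | exact d3)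
        | (rw [s2, s1, neg_neg]; first | exact d0 | exact d1 | exact d2 | exact d3)
        | (rw [s1, s2, s1]; simp only [neg_neg, neg_eq_zero]
           first | exact d0 | exact d1 | exact d2 | exact d3)
    have hcr0 : ∀ i j, cr (q i) (q j) = 0 := by
      intro i j
      by_contra hne
      obtain ⟨k, hk⟩ := hcon _ hne
      rw [hdt] at hk
      exact hk (hall i j k)
    by_cases hq : ∀ i, q i = 0
    · obtain ⟨k, hk⟩ := hcon !₂[1, 0, 0] (by
        intro h
        have := congrArg (fun z : E3 => z 0) h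
        simp at this)
      rw [hq k, inner_zero_right] at hk
      exact hk rfl
    · push Not at hq
      obtain ⟨i, hi⟩ := hq
      -- a vector orthogonal to q i
      have hort : ∃ n : E3, n ≠ 0 ∧ inner ℝ n (q i) = 0 := by
        by_cases h0 : q i 0 = 0 ∧ q i 1 = 0
        · refine ⟨!₂[1, 0, 0], ?_, ?_⟩
          · intro h
            have := congrArg (fun z : E3 => z 0) h
            simp at this
          · rw [inner3]; simp [h0.1]
        · refine ⟨!₂[-(q i 1), q i 0, 0], ?_, ?_⟩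
          · intro h
            apply h0
            have t0 := congrArg (fun z : E3 => z 0) h
            have t1 := congrArg (fun z : E3 => z 1) h
            simp at t0 t1
            exact ⟨t1, t0⟩
          · rw [inner3]; simp; ring
      obtain ⟨n, hn0, hni⟩ := hort
      obtain ⟨k, hk⟩ := hcon n hn0
      apply hk
      -- q k is parallel to q i
      have hc := hcr0 i k
      have c0 := congrArg (fun z : E3 => z 0) hc
      have c1 := congrArg (fun z : E3 => z 1) hc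
      have c2 := congrArg (fun z : E3 => z 2) hc
      simp [hcr] at c0 c1 c2
      rw [inner3] at hni ⊢
      have hsq : 0 < (q i 0) ^ 2 + (q i 1) ^ 2 + (q i 2) ^ 2 := by
        rw [← normsq3]
        have := norm_pos_iff.2 hi
        positivity
      have hmul : ((q i 0) ^ 2 + (q i 1) ^ 2 + (q i 2) ^ 2) *
          (n 0 * q k 0 + n 1 * q k 1 + n 2 * q k 2) = 0 := by
        linear_combination (q i 0 * q k 0 + q i 1 * q k 1 + q i 2 * q k 2) * hni +
          (n 1 * q i 2 - n 2 * q i 1) * (-c0) + (n 2 * q i 0 - n 0 * q i 2) * (-c1) +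
          (n 0 * q i 1 - n 1 * q i 0) * (-c2)
      rcases mul_eq_zero.1 hmul with h' | h'
      · linarith
      · exact h'
  obtain ⟨n, hn0, hnq⟩ := hn
  have hsub : zonotope q ⊆ ((LinearMap.ker (innerSL ℝ n).toLinearMap : Submodule ℝ E3) : Set E3) := by
    rintro z ⟨t, -, rfl⟩
    rw [SetLike.mem_coe, LinearMap.mem_ker]
    change inner ℝ n (∑ i, t i • q i) = 0
    rw [inner_sum]
    apply Finset.sum_eq_zero
    intro i _
    rw [inner_smul_right, hnq i, mul_zero]
  apply measure_mono_null hsub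
  apply Measure.addHaar_submodule
  intro htop
  have : n ∈ (LinearMap.ker (innerSL ℝ n).toLinearMap : Submodule ℝ E3) := by rw [htop]; trivial
  rw [LinearMap.mem_ker] at this
  have h2 : inner ℝ n n = 0 := this
  exact hn0 (inner_self_eq_zero.1 h2)

/-- lower bound for the radius of an enclosing ball -/
theorem radius_ge {q : Fin 4 → E3} (hv : volume (zonotope q) = 1) {c : E3} {r : ℝ} (hr : 0 ≤ r)
    (h : zonotope q ⊆ closedBall c r) : 1 ≤ 2 * r ^ 3 := by
  by_cases hc : ∃ i, mn q i ≠ 0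
  · have h1 := vol_le_of_ne q hc
    rw [hv] at h1
    have h2 := mn_le hr h
    have h3 : (1 : ENNReal) ≤ ENNReal.ofReal (2 * r ^ 3) := h1.trans (ENNReal.ofReal_le_ofReal h2)
    rw [← ENNReal.ofReal_one] at h3
    exact (ENNReal.ofReal_le_ofReal_iff (by positivity)).1 h3
  · push Not at hc
    rw [vol_zero hc] at hv
    exact absurd hv zero_ne_one

theorem ocube_open : IsOpen ocube := by
  have e : ocube = ⋂ i : Fin 3, {x : E3 | 0 < x i ∧ x i < 1} := by
    ext x; simp [ocube]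
  rw [e]
  apply isOpen_iInter_of_finite
  intro i
  have hc : Continuous fun x : E3 => x i := by fun_prop
  exact (isOpen_lt continuous_const hc).inter (isOpen_lt hc continuous_const)

theorem opar_open {a b c : E3} (h : dt a b c ≠ 0) : IsOpen (opar a b c) := by
  have hd : LinearMap.det (lm a b c) ≠ 0 := by rw [lm_det]; exact h
  have e : opar a b c = lm a b c '' ocube := by
    ext z
    constructor
    · rintro ⟨x, y, w, hx, hy, hw, rfl⟩
      refine ⟨!₂[x, y, w], ?_, ?_⟩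
      · intro i
        fin_cases i
        · simpa using hx
        · simpa using hy
        · simpa using hw
      · simp [lm_eq]
    · rintro ⟨x, hx, rfl⟩
      exact ⟨x 0, x 1, x 2, hx 0, hx 1, hx 2, rfl⟩
  rw [e]
  have hbij := (LinearMap.equivOfDetNeZero (lm a b c) hd)
  have hopen : IsOpenMap (lm a b c) := by
    have h1 : IsOpenMap (LinearMap.equivOfDetNeZero (lm a b c) hd).toContinuousLinearEquiv :=
      ContinuousLinearEquiv.isOpenMap _
    exact h1
  exact hopen _ ocube_open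

/-- the example -/
noncomputable def P (κ : ℝ) : Fin 4 → E3 :=
  ![!₂[11 * κ, 10 * κ, 10 * κ], !₂[11 * κ, -(10 * κ), -(10 * κ)],
    !₂[-(9 * κ), 10 * κ, -(10 * κ)], !₂[-(9 * κ), -(10 * κ), 10 * κ]]

theorem dtP0 (κ : ℝ) : dt (P κ 1) (P κ 2) (P κ 3) = -3600 * κ ^ 3 := by
  simp [P, dt]; ring

theorem dtP1 (κ : ℝ) : dt (P κ 0) (P κ 2) (P κ 3) = 3600 * κ ^ 3 := by
  simp [P, dt]; ring

theorem dtP2 (κ : ℝ) : dt (P κ 0) (P κ 1) (P κ 3) = -4400 * κ ^ 3 := by
  simp [P, dt]; ring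

theorem dtP3 (κ : ℝ) : dt (P κ 0) (P κ 1) (P κ 2) = 4400 * κ ^ 3 := by
  simp [P, dt]; ring

theorem comb (κ : ℝ) (t : Fin 4 → ℝ) : ∑ i, t i • P κ i =
    !₂[κ * (11 * (t 0 + t 1) - 9 * (t 2 + t 3)), κ * (10 * (t 0 - t 1 + t 2 - t 3)),
      κ * (10 * (t 0 - t 1 - t 2 + t 3))] := by
  rw [Fin.sum_univ_four]
  ext a
  fin_cases a
  · simp [P]; ring
  · simp [P]; ring
  · simp [P]; ring

theorem comb_inj {κ : ℝ} (hκ : 0 < κ) {t s : Fin 4 → ℝ}
    (h : ∑ i, t i • P κ i = ∑ i, s i • P κ i) :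
    t 0 - s 0 = t 1 - s 1 ∧ t 2 - s 2 = t 3 - s 3 ∧ 11 * (t 0 - s 0) = 9 * (t 2 - s 2) := by
  rw [comb, comb] at h
  have h0 := congrArg (fun z : E3 => z 0) h
  have h1 := congrArg (fun z : E3 => z 1) h
  have h2 := congrArg (fun z : E3 => z 2) h
  simp at h0 h1 h2
  have h0' := h0.resolve_right hκ.ne'
  have h1' := h1.resolve_right hκ.ne'
  have h2' := h2.resolve_right hκ.ne'
  refine ⟨by linarith, by linarith, by linarith⟩

/-- points of the four open cells -/
def cell (κ : ℝ) (k : Fin 4) : Set E3 :=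
  {z | ∃ t : Fin 4 → ℝ, t k = 0 ∧ (∀ i, i ≠ k → 0 < t i ∧ t i < 1) ∧ z = ∑ i, t i • P κ i}

theorem sign_aux {δ : Fin 4 → ℝ} (e1 : δ 0 = δ 1) (e2 : δ 2 = δ 3) (e3 : 11 * δ 0 = 9 * δ 2)
    {k l : Fin 4} (hk : δ k < 0) (hl : 0 < δ l) : False := by
  rcases le_or_gt (δ 0) 0 with h | h
  · have all : ∀ l, δ l ≤ 0 := by
      intro l
      match l with
      | 0 => exact h
      | 1 => linarith
      | 2 => linarith
      | 3 => linarith
    linarith [all l]
  · have all : ∀ l, 0 < δ l := by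
      intro l
      match l with
      | 0 => exact h
      | 1 => linarith
      | 2 => linarith
      | 3 => linarith
    linarith [all k]

theorem cell_disj {κ : ℝ} (hκ : 0 < κ) {k l : Fin 4} (hkl : k ≠ l) :
    Disjoint (cell κ k) (cell κ l) := by
  rw [Set.disjoint_left]
  rintro z ⟨t, htk, ht, rfl⟩ ⟨s, hsl, hs, hst⟩
  obtain ⟨e1, e2, e3⟩ := comb_inj hκ hst
  have a1 := (hs k hkl).1
  have a2 := (ht l hkl.symm).1
  exact sign_aux (δ := fun i => t i - s i) e1 e2 e3 (k := k) (l := l)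
    (by linarith) (by linarith)

theorem cell_eq0 (κ : ℝ) : cell κ 0 = opar (P κ 1) (P κ 2) (P κ 3) := by
  ext z
  constructor
  · rintro ⟨t, h0, ht, rfl⟩
    refine ⟨t 1, t 2, t 3, ht 1 (by decide), ht 2 (by decide), ht 3 (by decide), ?_⟩
    rw [Fin.sum_univ_four, h0, zero_smul, zero_add]
  · rintro ⟨x, y, w, hx, hy, hw, rfl⟩
    refine ⟨![0, x, y, w], rfl, ?_, ?_⟩
    · intro i hi
      fin_cases i
      · exact absurd rfl hi
      · exact hx
      · exact hy
      · exact hw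
    · rw [Fin.sum_univ_four]; simp

theorem cell_eq1 (κ : ℝ) : cell κ 1 = opar (P κ 0) (P κ 2) (P κ 3) := by
  ext z
  constructor
  · rintro ⟨t, h0, ht, rfl⟩
    refine ⟨t 0, t 2, t 3, ht 0 (by decide), ht 2 (by decide), ht 3 (by decide), ?_⟩
    rw [Fin.sum_univ_four, h0, zero_smul, add_zero]
  · rintro ⟨x, y, w, hx, hy, hw, rfl⟩
    refine ⟨![x, 0, y, w], rfl, ?_, ?_⟩
    · intro i hi
      fin_cases i
      · exact hx
      · exact absurd rfl hi
      · exact hy
      · exact hw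
    · rw [Fin.sum_univ_four]; simp

theorem cell_eq2 (κ : ℝ) : cell κ 2 = opar (P κ 0) (P κ 1) (P κ 3) := by
  ext z
  constructor
  · rintro ⟨t, h0, ht, rfl⟩
    refine ⟨t 0, t 1, t 3, ht 0 (by decide), ht 1 (by decide), ht 3 (by decide), ?_⟩
    rw [Fin.sum_univ_four, h0, zero_smul, add_zero]
  · rintro ⟨x, y, w, hx, hy, hw, rfl⟩
    refine ⟨![x, y, 0, w], rfl, ?_, ?_⟩
    · intro i hi
      fin_cases i
      · exact hx
      · exact hy
      · exact absurd rfl hi
      · exact hw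
    · rw [Fin.sum_univ_four]; simp

theorem cell_eq3 (κ : ℝ) : cell κ 3 = opar (P κ 0) (P κ 1) (P κ 2) := by
  ext z
  constructor
  · rintro ⟨t, h0, ht, rfl⟩
    refine ⟨t 0, t 1, t 2, ht 0 (by decide), ht 1 (by decide), ht 2 (by decide), ?_⟩
    rw [Fin.sum_univ_four, h0, zero_smul, add_zero]
  · rintro ⟨x, y, w, hx, hy, hw, rfl⟩
    refine ⟨![x, y, w, 0], rfl, ?_, ?_⟩
    · intro i hi
      fin_cases i
      · exact hx
      · exact hy
      · exact hw
      · exact absurd rfl hi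
    · rw [Fin.sum_univ_four]; simp

theorem cell_sub (κ : ℝ) (k : Fin 4) : cell κ k ⊆ zonotope (P κ) := by
  rintro z ⟨t, h0, ht, rfl⟩
  refine ⟨t, fun i => ?_, rfl⟩
  by_cases hi : i = k
  · rw [hi, h0]; exact ⟨le_rfl, zero_le_one⟩
  · exact ⟨(ht i hi).1.le, (ht i hi).2.le⟩

theorem volP {κ : ℝ} (hκ : 0 < κ) : volume (zonotope (P κ)) = ENNReal.ofReal (16000 * κ ^ 3) := by
  have hk3 : 0 < κ ^ 3 := by positivity
  apply le_antisymm
  · have h := vol_le_of_ne (P κ) ⟨0, by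
      change dt (P κ 1) (P κ 2) (P κ 3) ≠ 0
      rw [dtP0]; nlinarith⟩
    refine h.trans (le_of_eq ?_)
    congr 1
    simp only [mn, Matrix.cons_val]
    rw [dtP0, dtP1, dtP2, dtP3, abs_of_neg (by linarith), abs_of_neg (by linarith),
      abs_of_neg (by linarith), abs_of_neg (by linarith)]
    ring
  · have m0 : MeasurableSet (cell κ 0) := by
      rw [cell_eq0]; exact (opar_open (by rw [dtP0]; nlinarith)).measurableSet
    have m1 : MeasurableSet (cell κ 1) := by
      rw [cell_eq1]; exact (opar_open (by rw [dtP1]; nlinarith)).measurableSet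
    have m2 : MeasurableSet (cell κ 2) := by
      rw [cell_eq2]; exact (opar_open (by rw [dtP2]; nlinarith)).measurableSet
    have m3 : MeasurableSet (cell κ 3) := by
      rw [cell_eq3]; exact (opar_open (by rw [dtP3]; nlinarith)).measurableSet
    have v0 : volume (cell κ 0) = ENNReal.ofReal (3600 * κ ^ 3) := by
      rw [cell_eq0, vol_opar, dtP0, abs_of_neg (by linarith)]; congr 1; ring
    have v1 : volume (cell κ 1) = ENNReal.ofReal (3600 * κ ^ 3) := by
      rw [cell_eq1, vol_opar, dtP1, abs_of_pos (by linarith)]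
    have v2 : volume (cell κ 2) = ENNReal.ofReal (4400 * κ ^ 3) := by
      rw [cell_eq2, vol_opar, dtP2, abs_of_neg (by linarith)]; congr 1; ring
    have v3 : volume (cell κ 3) = ENNReal.ofReal (4400 * κ ^ 3) := by
      rw [cell_eq3, vol_opar, dtP3, abs_of_pos (by linarith)]
    have hU : volume (((cell κ 0 ∪ cell κ 1) ∪ cell κ 2) ∪ cell κ 3) =
        ENNReal.ofReal (16000 * κ ^ 3) := by
      rw [measure_union _ m3, measure_union _ m2, measure_union _ m1, v0, v1, v2, v3,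
        ← ENNReal.ofReal_add (by positivity) (by positivity),
        ← ENNReal.ofReal_add (by positivity) (by positivity),
        ← ENNReal.ofReal_add (by positivity) (by positivity)]
      · congr 1; ring
      · exact cell_disj hκ (by decide)
      · exact (cell_disj hκ (by decide)).union_left (cell_disj hκ (by decide))
      · exact ((cell_disj hκ (by decide)).union_left (cell_disj hκ (by decide))).union_left
          (cell_disj hκ (by decide))
    rw [← hU]
    apply measure_mono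
    exact union_subset (union_subset (union_subset (cell_sub κ 0) (cell_sub κ 1)) (cell_sub κ 2))
      (cell_sub κ 3)

theorem abs_two {x y : ℝ} (hx : |x| ≤ 1) (hy : |y| ≤ 1) : |x + y| + |x - y| ≤ 2 := by
  rw [abs_le] at hx hy
  rcases abs_cases (x + y) with ⟨h1, _⟩ | ⟨h1, _⟩ <;> rcases abs_cases (x - y) with ⟨h2, _⟩ | ⟨h2, _⟩
  all_goals rw [h1, h2]; linarith [hx.1, hx.2, hy.1, hy.2]

theorem ballP {κ : ℝ} (hκ : 0 < κ) :
    zonotope (P κ) ⊆ closedBall (∑ i, (1 / 2 : ℝ) • P κ i) (20 * κ) := by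
  rintro z ⟨t, ht, rfl⟩
  rw [mem_closedBall, dist_eq_norm, ← Finset.sum_sub_distrib]
  have e : ∑ i, (t i • P κ i - (1 / 2 : ℝ) • P κ i) = ∑ i, (t i - 1 / 2) • P κ i :=
    Finset.sum_congr rfl fun i _ => by rw [sub_smul]
  rw [e, comb]
  have hτ : ∀ i, |2 * t i - 1| ≤ 1 := fun i => by
    rw [abs_le]; exact ⟨by linarith [(ht i).1], by linarith [(ht i).2]⟩
  set a := (2 * t 0 - 1) + (2 * t 1 - 1) with ha
  set b := (2 * t 0 - 1) - (2 * t 1 - 1) with hb
  set c := (2 * t 2 - 1) + (2 * t 3 - 1) with hc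
  set d := (2 * t 2 - 1) - (2 * t 3 - 1) with hd
  have hab : |a| + |b| ≤ 2 := abs_two (hτ 0) (hτ 1)
  have hcd : |c| + |d| ≤ 2 := abs_two (hτ 2) (hτ 3)
  have key : (11 * a - 9 * c) ^ 2 + (10 * (b + d)) ^ 2 + (10 * (b - d)) ^ 2 ≤ 1600 := by
    have h1 : (11 * a - 9 * c) ^ 2 ≤ (11 * |a| + 9 * |c|) ^ 2 := by
      apply sq_le_sq'
      · have := neg_abs_le a; have := le_abs_self c; linarith
      · have := le_abs_self a; have := neg_abs_le c; linarith
    have h2 : b ^ 2 ≤ (2 - |a|) ^ 2 := by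
      rw [← sq_abs b]
      have := abs_nonneg b
      apply pow_le_pow_left₀ this; linarith
    have h3 : d ^ 2 ≤ (2 - |c|) ^ 2 := by
      rw [← sq_abs d]
      have := abs_nonneg d
      apply pow_le_pow_left₀ this; linarith
    have hA0 := abs_nonneg a
    have hC0 := abs_nonneg c
    have hA2 : 0 ≤ 2 - |a| := by linarith [abs_nonneg b]
    have hC2 : 0 ≤ 2 - |c| := by linarith [abs_nonneg d]
    have m1 := mul_nonneg hA0 hA2
    have m2 := mul_nonneg hC0 hC2
    have m3 := mul_nonneg hA0 hC2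
    have m4 := mul_nonneg hC0 hA2
    nlinarith
  have hsq : ‖(!₂[κ * (11 * (t 0 - 1 / 2 + (t 1 - 1 / 2)) - 9 * (t 2 - 1 / 2 + (t 3 - 1 / 2))),
      κ * (10 * (t 0 - 1 / 2 - (t 1 - 1 / 2) + (t 2 - 1 / 2) - (t 3 - 1 / 2))),
      κ * (10 * (t 0 - 1 / 2 - (t 1 - 1 / 2) - (t 2 - 1 / 2) + (t 3 - 1 / 2)))] : E3)‖ ^ 2 ≤
      (20 * κ) ^ 2 := by
    rw [normsq3]
    simp only [Matrix.cons_val]
    have h5 : (κ * (11 * (t 0 - 1 / 2 + (t 1 - 1 / 2)) - 9 * (t 2 - 1 / 2 + (t 3 - 1 / 2)))) ^ 2 +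
      (κ * (10 * (t 0 - 1 / 2 - (t 1 - 1 / 2) + (t 2 - 1 / 2) - (t 3 - 1 / 2)))) ^ 2 +
      (κ * (10 * (t 0 - 1 / 2 - (t 1 - 1 / 2) - (t 2 - 1 / 2) + (t 3 - 1 / 2)))) ^ 2 =
      κ ^ 2 / 4 * ((11 * a - 9 * c) ^ 2 + (10 * (b + d)) ^ 2 + (10 * (b - d)) ^ 2) := by
      rw [ha, hb, hc, hd]; ring
    rw [h5]
    have : 0 < κ ^ 2 := by positivity
    nlinarith
  exact (sq_le_sq₀ (norm_nonneg _) (by positivity)).1 hsq

/-- widths of included zonotopes -/
theorem width_le {p q : Fin 4 → E3} {v : E3} (h : zonotope p ⊆ (fun x => v + x) '' zonotope q)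
    (u : E3) : ∑ i, |inner ℝ u (p i)| ≤ ∑ i, |inner ℝ u (q i)| := by
  classical
  have h1 : ∑ i, (if 0 < inner ℝ u (p i) then (1 : ℝ) else 0) • p i ∈ zonotope p := by
    refine ⟨_, fun i => ?_, rfl⟩
    split_ifs <;> norm_num
  have h2 : ∑ i, (if 0 < inner ℝ u (p i) then (0 : ℝ) else 1) • p i ∈ zonotope p := by
    refine ⟨_, fun i => ?_, rfl⟩
    split_ifs <;> norm_num
  obtain ⟨_, ⟨s, hs, rfl⟩, e1⟩ := h h1
  obtain ⟨_, ⟨s', hs', rfl⟩, e2⟩ := h h2
  have h3 : inner ℝ u (∑ i, (if 0 < inner ℝ u (p i) then (1 : ℝ) else 0) • p i -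
      ∑ i, (if 0 < inner ℝ u (p i) then (0 : ℝ) else 1) • p i) = ∑ i, |inner ℝ u (p i)| := by
    rw [← Finset.sum_sub_distrib, inner_sum]
    refine Finset.sum_congr rfl fun i _ => ?_
    rw [← sub_smul, inner_smul_right]
    split_ifs with h
    · rw [abs_of_pos h]; ring
    · rw [abs_of_nonpos (not_lt.1 h)]; ring
  rw [← h3, ← e1, ← e2, add_sub_add_left_eq_sub, ← Finset.sum_sub_distrib, inner_sum]
  refine Finset.sum_le_sum fun i _ => ?_
  rw [← sub_smul, inner_smul_right]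
  have h4 : |s i - s' i| ≤ 1 := by
    rw [abs_le]
    exact ⟨by linarith [(hs i).1, (hs' i).2], by linarith [(hs i).2, (hs' i).1]⟩
  calc (s i - s' i) * inner ℝ u (q i) ≤ |(s i - s' i) * inner ℝ u (q i)| := le_abs_self _
    _ = |s i - s' i| * |inner ℝ u (q i)| := abs_mul _ _
    _ ≤ 1 * |inner ℝ u (q i)| := by gcongr
    _ = _ := one_mul _

/-- Gram matrix of a regular simplex -/
theorem gram {p : Fin 4 → E3} (h0 : ∑ i, p i = 0) {l : ℝ}
    (hl : ∀ i j, i ≠ j → dist (p i) (p j) = l) (i j : Fin 4) :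
    inner ℝ (p i) (p j) = if i = j then 3 * l ^ 2 / 8 else -(l ^ 2 / 8) := by
  have hd : ∀ i j, i ≠ j → ‖p i‖ ^ 2 + ‖p j‖ ^ 2 - 2 * inner ℝ (p i) (p j) = l ^ 2 := by
    intro i j hij
    rw [← hl i j hij, dist_eq_norm, norm_sub_sq_real]; ring
  have hs : ∀ i, inner ℝ (p i) (p 0) + inner ℝ (p i) (p 1) + inner ℝ (p i) (p 2) +
      inner ℝ (p i) (p 3) = 0 := by
    intro i
    have := congrArg (fun z => inner ℝ (p i) z) h0
    simp only [Fin.sum_univ_four, inner_add_right, inner_zero_right] at this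
    exact this
  have c : ∀ i j, inner ℝ (p i) (p j) = inner ℝ (p j) (p i) := fun i j => real_inner_comm _ _
  have n : ∀ i, inner ℝ (p i) (p i) = ‖p i‖ ^ 2 := fun i => real_inner_self_eq_norm_sq _
  have d01 := hd 0 1 (by decide)
  have d02 := hd 0 2 (by decide)
  have d03 := hd 0 3 (by decide)
  have d12 := hd 1 2 (by decide)
  have d13 := hd 1 3 (by decide)
  have d23 := hd 2 3 (by decide)
  have s0 := hs 0
  have s1 := hs 1
  have s2 := hs 2
  have s3 := hs 3
  rw [n] at s0 s1 s2 s3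
  rw [c 1 0] at s1
  rw [c 2 0, c 2 1] at s2
  rw [c 3 0, c 3 1, c 3 2] at s3
  have nn : ∀ i, ‖p i‖ ^ 2 = 3 * l ^ 2 / 8 := by
    intro i
    match i with
    | 0 => linarith
    | 1 => linarith
    | 2 => linarith
    | 3 => linarith
  have hoff : ∀ i j, i ≠ j → inner ℝ (p i) (p j) = -(l ^ 2 / 8) := by
    intro i j hij
    have := hd i j hij
    rw [nn i, nn j] at this
    linarith
  split_ifs with h
  · rw [h, n, nn]
  · exact hoff i j h

/-- tight frame property -/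
theorem frame {p : Fin 4 → E3} (h0 : ∑ i, p i = 0) {l : ℝ} (hl0 : 0 < l)
    (hl : ∀ i j, i ≠ j → dist (p i) (p j) = l) (u : E3) :
    ∑ i, (inner ℝ u (p i)) ^ 2 = l ^ 2 / 2 * ‖u‖ ^ 2 := by
  have g := gram h0 hl
  have gd : ∀ i, inner ℝ (p i) (p i) = 3 * l ^ 2 / 8 := fun i => by rw [g, if_pos rfl]
  have go : ∀ i j, i ≠ j → inner ℝ (p i) (p j) = -(l ^ 2 / 8) := fun i j h => by
    rw [g, if_neg h]
  have g00 := gd 0
  have g01 := go 0 1 (by decide)
  have g02 := go 0 2 (by decide)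
  have g03 := go 0 3 (by decide)
  have g10 := go 1 0 (by decide)
  have g11 := gd 1
  have g12 := go 1 2 (by decide)
  have g13 := go 1 3 (by decide)
  have g20 := go 2 0 (by decide)
  have g21 := go 2 1 (by decide)
  have g22 := gd 2
  have g23 := go 2 3 (by decide)
  have g30 := go 3 0 (by decide)
  have g31 := go 3 1 (by decide)
  have g32 := go 3 2 (by decide)
  have g33 := gd 3
  have hl2 : 0 < l ^ 2 := by positivity
  have hli : LinearIndependent ℝ ![p 0, p 1, p 2] := by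
    rw [Fintype.linearIndependent_iff]
    intro a ha
    rw [Fin.sum_univ_three] at ha
    simp only [Matrix.cons_val] at ha
    have e : ∀ j, a 0 * inner ℝ (p 0) (p j) + a 1 * inner ℝ (p 1) (p j) +
        a 2 * inner ℝ (p 2) (p j) = 0 := by
      intro j
      have := congrArg (fun z => inner ℝ z (p j)) ha
      simp only [inner_add_left, real_inner_smul_left, inner_zero_left] at this
      exact this
    have e0 := e 0
    have e1 := e 1
    have e2 := e 2
    simp only [g00, g01, g02, g10, g11, g12, g20, g21, g22] at e0 e1 e2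
    have f0 : l ^ 2 * (3 * a 0 - a 1 - a 2) = 0 := by linarith
    have f1 : l ^ 2 * (3 * a 1 - a 0 - a 2) = 0 := by linarith
    have f2 : l ^ 2 * (3 * a 2 - a 0 - a 1) = 0 := by linarith
    have g0 := (mul_eq_zero.1 f0).resolve_left hl2.ne'
    have g1 := (mul_eq_zero.1 f1).resolve_left hl2.ne'
    have g2 := (mul_eq_zero.1 f2).resolve_left hl2.ne'
    intro i
    match i with
    | 0 => linarith
    | 1 => linarith
    | 2 => linarith
  have hspan := hli.span_eq_top_of_card_eq_finrank (by simp)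
  have hu : u ∈ Submodule.span ℝ (Set.range ![p 0, p 1, p 2]) := by rw [hspan]; trivial
  rw [Submodule.mem_span_range_iff_exists_fun] at hu
  obtain ⟨a, ha⟩ := hu
  rw [Fin.sum_univ_three] at ha
  simp only [Matrix.cons_val] at ha
  have hin : ∀ j, inner ℝ u (p j) = a 0 * inner ℝ (p 0) (p j) + a 1 * inner ℝ (p 1) (p j) +
        a 2 * inner ℝ (p 2) (p j) := by
    intro j
    rw [← ha]
    simp only [inner_add_left, real_inner_smul_left]
  have hnorm : ‖u‖ ^ 2 = a 0 * inner ℝ u (p 0) + a 1 * inner ℝ u (p 1) + a 2 * inner ℝ u (p 2) := by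
    rw [← real_inner_self_eq_norm_sq]
    nth_rewrite 2 [← ha]
    simp only [inner_add_right, real_inner_smul_right]
  rw [hnorm, Fin.sum_univ_four]
  simp only [hin, g00, g01, g02, g03, g10, g11, g12, g13, g20, g21, g22, g23]
  ring

theorem abs_sum_ge {a b c d : ℝ} (h : a + b + c + d = 0) :
    2 * (a ^ 2 + b ^ 2 + c ^ 2 + d ^ 2) ≤ (|a| + |b| + |c| + |d|) ^ 2 := by
  set S := |a| + |b| + |c| + |d| with hS
  have key : ∀ x y z w : ℝ, x + y + z + w = 0 → |x| ≤ (|x| + |y| + |z| + |w|) / 2 := by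
    intro x y z w hx
    have e : x = -(y + z + w) := by linarith
    have h1 : |x| ≤ |y| + |z| + |w| := by
      rw [e, abs_neg]; exact abs_add_three y z w
    linarith
  have ka := key a b c d h
  have kb := key b a c d (by linarith)
  have kc := key c a b d (by linarith)
  have kd := key d a b c (by linarith)
  have f : ∀ x : ℝ, |x| ≤ S / 2 → x ^ 2 ≤ |x| * (S / 2) := by
    intro x hx
    rw [← sq_abs, sq]
    exact mul_le_mul_of_nonneg_left hx (abs_nonneg x)
  have fa := f a (by rw [hS]; linarith)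
  have fb := f b (by rw [hS]; linarith)
  have fc := f c (by rw [hS]; linarith)
  have fd := f d (by rw [hS]; linarith)
  have : 2 * (|a| * (S / 2) + |b| * (S / 2) + |c| * (S / 2) + |d| * (S / 2)) = S ^ 2 := by
    rw [hS]; ring
  linarith

theorem abs_sum_le (a b c d : ℝ) :
    (|a| + |b| + |c| + |d|) ^ 2 ≤ 4 * (a ^ 2 + b ^ 2 + c ^ 2 + d ^ 2) := by
  rw [← sq_abs a, ← sq_abs b, ← sq_abs c, ← sq_abs d]
  nlinarith [sq_nonneg (|a| - |b|), sq_nonneg (|a| - |c|), sq_nonneg (|a| - |d|),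
    sq_nonneg (|b| - |c|), sq_nonneg (|b| - |d|), sq_nonneg (|c| - |d|)]

theorem not_regular {κ : ℝ} (hκ : 0 < κ) : ¬ IsRegular (zonotope (P κ)) := by
  rintro ⟨v, q, hq0, ⟨l, hl0, hl⟩, hZ⟩
  have h1 := fun u => width_le (p := P κ) (q := q) (v := v) hZ.le u
  have hsub : zonotope q ⊆ (fun x => -v + x) '' zonotope (P κ) := by
    intro x hx
    refine ⟨v + x, ?_, by simp⟩
    rw [hZ]; exact ⟨x, hx, rfl⟩
  have h2 := fun u => width_le (p := q) (q := P κ) (v := -v) hsub u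
  have hfr := frame hq0 hl0 hl
  have hsum : ∀ u : E3, inner ℝ u (q 0) + inner ℝ u (q 1) + inner ℝ u (q 2) +
      inner ℝ u (q 3) = 0 := by
    intro u
    have hq0' : q 0 + q 1 + q 2 + q 3 = 0 := by rw [← Fin.sum_univ_four]; exact hq0
    have := congrArg (fun z => inner ℝ u z) hq0'
    simp only [inner_add_right, inner_zero_right] at this
    exact this
  -- first direction
  have a1 := h1 !₂[1, 0, 0]
  have b1 := hfr !₂[1, 0, 0]
  have w1 : ∑ i, |inner ℝ (!₂[1, 0, 0] : E3) (P κ i)| = 40 * κ := by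
    rw [Fin.sum_univ_four]
    simp only [inner3, P, Matrix.cons_val]
    have e1 : |(1 : ℝ) * (11 * κ) + 0 * (10 * κ) + 0 * (10 * κ)| = 11 * κ := by
      rw [abs_of_nonneg] <;> nlinarith
    have e2 : |(1 : ℝ) * (11 * κ) + 0 * (-(10 * κ)) + 0 * (-(10 * κ))| = 11 * κ := by
      rw [abs_of_nonneg] <;> nlinarith
    have e3 : |(1 : ℝ) * (-(9 * κ)) + 0 * (10 * κ) + 0 * (-(10 * κ))| = 9 * κ := by
      rw [abs_of_nonpos] <;> nlinarith
    have e4 : |(1 : ℝ) * (-(9 * κ)) + 0 * (-(10 * κ)) + 0 * (10 * κ)| = 9 * κ := by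
      rw [abs_of_nonpos] <;> nlinarith
    rw [e1, e2, e3, e4]; ring
  have n1 : ‖(!₂[1, 0, 0] : E3)‖ ^ 2 = 1 := by
    rw [normsq3]; simp
  rw [w1, Fin.sum_univ_four] at a1
  rw [n1, Fin.sum_univ_four] at b1
  have c1 := abs_sum_le (inner ℝ (!₂[1, 0, 0] : E3) (q 0)) (inner ℝ (!₂[1, 0, 0] : E3) (q 1))
    (inner ℝ (!₂[1, 0, 0] : E3) (q 2)) (inner ℝ (!₂[1, 0, 0] : E3) (q 3))
  rw [b1] at c1
  have d1 : (40 * κ) ^ 2 ≤ 4 * (l ^ 2 / 2 * 1) := by
    refine le_trans ?_ c1
    gcongr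
  -- second direction
  have a2 := h2 !₂[-10, 1, 10]
  have b2 := hfr !₂[-10, 1, 10]
  have w2 : ∑ i, |inner ℝ (!₂[-10, 1, 10] : E3) (P κ i)| = 400 * κ := by
    rw [Fin.sum_univ_four]
    simp only [inner3, P, Matrix.cons_val]
    have e1 : |(-10 : ℝ) * (11 * κ) + 1 * (10 * κ) + 10 * (10 * κ)| = 0 := by
      rw [abs_eq_zero]; ring
    have e2 : |(-10 : ℝ) * (11 * κ) + 1 * (-(10 * κ)) + 10 * (-(10 * κ))| = 220 * κ := by
      rw [abs_of_nonpos] <;> nlinarith
    have e3 : |(-10 : ℝ) * (-(9 * κ)) + 1 * (10 * κ) + 10 * (-(10 * κ))| = 0 := by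
      rw [abs_eq_zero]; ring
    have e4 : |(-10 : ℝ) * (-(9 * κ)) + 1 * (-(10 * κ)) + 10 * (10 * κ)| = 180 * κ := by
      rw [abs_of_nonneg] <;> nlinarith
    rw [e1, e2, e3, e4]; ring
  have n2 : ‖(!₂[-10, 1, 10] : E3)‖ ^ 2 = 201 := by
    rw [normsq3]; simp only [Matrix.cons_val]; norm_num
  rw [w2, Fin.sum_univ_four] at a2
  rw [n2, Fin.sum_univ_four] at b2
  have c2 := abs_sum_ge (hsum !₂[-10, 1, 10])
  rw [b2] at c2
  have d2 : 2 * (l ^ 2 / 2 * 201) ≤ (400 * κ) ^ 2 := by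
    refine c2.trans ?_
    gcongr
  have : 0 < κ ^ 2 := by positivity
  nlinarith

/-- In space there is a rhombic dodecahedron of unit volume, with the least circumradius among all
rhombic dodecahedra of unit volume, which is not regular. -/
theorem result : ∃ d : ℕ, 2 ≤ d ∧ ∃ Z : Set (EuclideanSpace ℝ (Fin d)),
    IsRhombicDodecahedron Z ∧ volume Z = 1 ∧
    (∀ Z' : Set (EuclideanSpace ℝ (Fin d)), IsRhombicDodecahedron Z' → volume Z' = 1 →
      circumradius Z ≤ circumradius Z') ∧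
    ¬ IsRegular Z := by
  obtain ⟨κ, hκ, hκ3⟩ : ∃ κ : ℝ, 0 < κ ∧ 16000 * κ ^ 3 = 1 := by
    refine ⟨(1 / 16000) ^ ((1 : ℝ) / 3), by positivity, ?_⟩
    rw [← Real.rpow_natCast, ← Real.rpow_mul (by norm_num)]
    norm_num
  refine ⟨3, by norm_num, zonotope (P κ), ⟨⟨P κ, rfl⟩, ?_⟩, ?_, ?_, not_regular hκ⟩
  · have ho : IsOpen (cell κ 3) := by
      rw [cell_eq3]
      apply opar_open
      rw [dtP3]
      have : 0 < κ ^ 3 := by positivity
      nlinarith
    have hne : (cell κ 3).Nonempty := by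
      refine ⟨_, ![1 / 2, 1 / 2, 1 / 2, 0], rfl, ?_, rfl⟩
      intro i hi
      have hh : (0 : ℝ) < 1 / 2 ∧ (1 / 2 : ℝ) < 1 := by norm_num
      match i with
      | 0 => exact hh
      | 1 => exact hh
      | 2 => exact hh
      | 3 => exact absurd rfl hi
    exact hne.mono (interior_maximal (cell_sub κ 3) ho)
  · rw [volP hκ, hκ3, ENNReal.ofReal_one]
  · rintro Z' ⟨⟨q, rfl⟩, -⟩ hv
    have h1 : circumradius (zonotope (P κ)) ≤ 20 * κ :=
      csInf_le ⟨0, fun r hr => hr.1⟩ ⟨by positivity, _, ballP hκ⟩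
    refine h1.trans ?_
    apply le_csInf
    · -- boundedness
      refine ⟨∑ i, ‖q i‖, by positivity, 0, ?_⟩
      rintro z ⟨t, ht, rfl⟩
      rw [mem_closedBall_zero_iff]
      refine (norm_sum_le _ _).trans (Finset.sum_le_sum fun i _ => ?_)
      rw [norm_smul, Real.norm_eq_abs, abs_of_nonneg (ht i).1]
      exact mul_le_of_le_one_left (norm_nonneg _) (ht i).2
    · rintro r ⟨hr, c, hc⟩
      have h2 := radius_ge hv hr hc
      by_contra hlt
      push Not at hlt
      have h3 : r ^ 3 < (20 * κ) ^ 3 := by gcongr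
      nlinarith

end Pool.Agent.Results.MP_de3f1f_gt.NonRegularMinimiser
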